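import Mathlib

set_option autoImplicit false

/-!
# The angles `∠_ρ` in real normed spaces

Definitions and criteria.
-/

namespace Pool.Agent.X238.Ang

/-- the product `⟨x | y⟩_ρ` -/
noncomputable def prd {X : Type} [NormedAddCommGroup X] [NormedSpace ℝ X] (ρ : ℝ) (x y : X) : ℝ :=
  ‖x‖ * ‖y‖ *
    ((‖‖x‖⁻¹ • x + ‖y‖⁻¹ • y‖ ^ 2 - ‖‖x‖⁻¹ • x - ‖y‖⁻¹ • y‖ ^ 2) / 4) *
    ((‖‖x‖⁻¹ • x + ‖y‖⁻¹ • y‖ ^ 2 + ‖‖x‖⁻¹ • x - ‖y‖⁻¹ • y‖ ^ 2) / 4) ^ ρ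

/-- the space has the angle `∠_ρ` -/
def HasAngle (ρ : ℝ) (X : Type) [NormedAddCommGroup X] [NormedSpace ℝ X] : Prop :=
  ∀ x y : X, x ≠ 0 → y ≠ 0 → |prd ρ x y| ≤ ‖x‖ * ‖y‖

/-- real normed spaces -/
structure NSp : Type 1 where
  carrier : Type
  [grp : NormedAddCommGroup carrier]
  [mod : NormedSpace ℝ carrier]

attribute [instance] NSp.grp NSp.mod

/-- the class of all real normed spaces -/
def NORM : Set NSp := Set.univ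

/-- the class of the real normed spaces that have the angle `∠_ρ` -/
def NORMr (ρ : ℝ) : Set NSp := {X | HasAngle ρ X.carrier}

variable {X : Type} [NormedAddCommGroup X] [NormedSpace ℝ X]

theorem hasAngle_iff (ρ : ℝ) : HasAngle ρ X ↔ ∀ x y : X, ‖x‖ = 1 → ‖y‖ = 1 →
    |(‖x + y‖ ^ 2 - ‖x - y‖ ^ 2) / 4| * ((‖x + y‖ ^ 2 + ‖x - y‖ ^ 2) / 4) ^ ρ ≤ 1 := by
  constructor
  · intro h x y hx hy
    have hx0 : x ≠ 0 := by rintro rfl; simp at hx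
    have hy0 : y ≠ 0 := by rintro rfl; simp at hy
    have := h x y hx0 hy0
    simp only [prd, hx, hy, inv_one, one_smul, mul_one, one_mul] at this
    rw [abs_mul] at this
    refine le_trans ?_ this
    gcongr
    exact le_abs_self _
  · intro h x y hx0 hy0
    have hx : 0 < ‖x‖ := norm_pos_iff.2 hx0
    have hy : 0 < ‖y‖ := norm_pos_iff.2 hy0
    have h1 : ‖‖x‖⁻¹ • x‖ = 1 := by
      rw [norm_smul, norm_inv, norm_norm, inv_mul_cancel₀ hx.ne']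
    have h2 : ‖‖y‖⁻¹ • y‖ = 1 := by
      rw [norm_smul, norm_inv, norm_norm, inv_mul_cancel₀ hy.ne']
    have h3 := h _ _ h1 h2
    unfold prd
    rw [abs_mul, abs_mul, abs_of_pos (mul_pos hx hy), mul_assoc]
    have h4 : |((‖‖x‖⁻¹ • x + ‖y‖⁻¹ • y‖ ^ 2 + ‖‖x‖⁻¹ • x - ‖y‖⁻¹ • y‖ ^ 2) / 4) ^ ρ| =
        ((‖‖x‖⁻¹ • x + ‖y‖⁻¹ • y‖ ^ 2 + ‖‖x‖⁻¹ • x - ‖y‖⁻¹ • y‖ ^ 2) / 4) ^ ρ :=
      abs_of_nonneg (Real.rpow_nonneg (by positivity) _)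
    rw [h4]
    exact mul_le_of_le_one_right (mul_pos hx hy).le h3

/-- the sum of the squares is positive -/
theorem pos_of_unit {x y : X} (hx : ‖x‖ = 1) (hy : ‖y‖ = 1) :
    0 < (‖x + y‖ ^ 2 + ‖x - y‖ ^ 2) / 4 := by
  by_contra hc
  have h1 : 0 ≤ ‖x + y‖ ^ 2 := by positivity
  have h2 : 0 ≤ ‖x - y‖ ^ 2 := by positivity
  have h3 : ‖x + y‖ ^ 2 = 0 := by linarith
  have h4 : ‖x - y‖ ^ 2 = 0 := by linarith
  have h5 : x + y = 0 := norm_eq_zero.1 (pow_eq_zero_iff (by norm_num) |>.1 h3)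
  have h6 : x - y = 0 := norm_eq_zero.1 (pow_eq_zero_iff (by norm_num) |>.1 h4)
  have h7 : (2 : ℝ) • x = 0 := by
    rw [two_smul]
    calc x + x = (x + y) + (x - y) := by abel
      _ = 0 := by rw [h5, h6, add_zero]
  have h8 : x = 0 := by
    rcases smul_eq_zero.1 h7 with h | h
    · norm_num at h
    · exact h
  rw [h8] at hx
  simp at hx

theorem sq_le_of_unit {x y : X} (hx : ‖x‖ = 1) (hy : ‖y‖ = 1) :
    ‖x + y‖ ^ 2 / 4 ≤ 1 ∧ ‖x - y‖ ^ 2 / 4 ≤ 1 := by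
  have h1 : ‖x + y‖ ≤ 2 := (norm_add_le _ _).trans (by rw [hx, hy]; norm_num)
  have h2 : ‖x - y‖ ≤ 2 := (norm_sub_le _ _).trans (by rw [hx, hy]; norm_num)
  have h3 : 0 ≤ ‖x + y‖ := norm_nonneg _
  have h4 : 0 ≤ ‖x - y‖ := norm_nonneg _
  constructor <;> nlinarith

/-- the classes decrease on both sides -/
theorem mono_pos {α β : ℝ} (h : α ≤ β) (hα : 0 ≤ α) (hX : HasAngle β X) : HasAngle α X := by
  rw [hasAngle_iff] at hX ⊢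
  intro x y hx hy
  have h1 := hX x y hx hy
  have hp := pos_of_unit hx hy
  obtain ⟨h2, h3⟩ := sq_le_of_unit hx hy
  have h4 : 0 ≤ ‖x + y‖ ^ 2 := by positivity
  have h5 : 0 ≤ ‖x - y‖ ^ 2 := by positivity
  have h6 : |(‖x + y‖ ^ 2 - ‖x - y‖ ^ 2) / 4| ≤ 1 := by
    rw [abs_le]
    constructor <;> linarith
  rcases le_total 1 ((‖x + y‖ ^ 2 + ‖x - y‖ ^ 2) / 4) with hc | hc
  · refine le_trans ?_ h1
    gcongr
  · have h7 : ((‖x + y‖ ^ 2 + ‖x - y‖ ^ 2) / 4) ^ α ≤ 1 := Real.rpow_le_one hp.le hc hα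
    calc _ ≤ (1 : ℝ) * 1 := by
          gcongr
      _ = 1 := one_mul 1

theorem mono_neg {γ δ : ℝ} (h : γ ≤ δ) (hγ : 0 ≤ γ) (hX : HasAngle (-δ) X) :
    HasAngle (-γ) X := by
  rw [hasAngle_iff] at hX ⊢
  intro x y hx hy
  have h1 := hX x y hx hy
  have hp := pos_of_unit hx hy
  obtain ⟨h2, h3⟩ := sq_le_of_unit hx hy
  have h4 : 0 ≤ ‖x + y‖ ^ 2 := by positivity
  have h5 : 0 ≤ ‖x - y‖ ^ 2 := by positivity
  have h6 : |(‖x + y‖ ^ 2 - ‖x - y‖ ^ 2) / 4| ≤ 1 := by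
    rw [abs_le]
    constructor <;> linarith
  rcases le_total ((‖x + y‖ ^ 2 + ‖x - y‖ ^ 2) / 4) 1 with hc | hc
  · refine le_trans ?_ h1
    have h8 : ((‖x + y‖ ^ 2 + ‖x - y‖ ^ 2) / 4) ^ (-γ) ≤
        ((‖x + y‖ ^ 2 + ‖x - y‖ ^ 2) / 4) ^ (-δ) :=
      Real.rpow_le_rpow_of_exponent_ge hp hc (by linarith)
    gcongr
  · have h7 : ((‖x + y‖ ^ 2 + ‖x - y‖ ^ 2) / 4) ^ (-γ) ≤ 1 :=
      Real.rpow_le_one_of_one_le_of_nonpos hc (by linarith)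
    calc _ ≤ (1 : ℝ) * 1 := by
          gcongr
      _ = 1 := one_mul 1

/-- `(S - D) (S + D) ^ ρ ≤ 1` from `S + κ D ≤ 1`, `κ = (ρ - 1) / (ρ + 1)`: the weighted inequality
between the means -/
theorem mean_ineq {S D ρ : ℝ} (hρ : 1 < ρ) (hD : 0 ≤ D) (hS : D ≤ S)
    (h : S + (ρ - 1) / (ρ + 1) * D ≤ 1) : (S - D) * (S + D) ^ ρ ≤ 1 := by
  have h0 : 0 ≤ S - D := by linarith
  have h1 : 0 ≤ S + D := by linarith
  have hρ1 : (0 : ℝ) < ρ + 1 := by linarith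
  have key := Real.geom_mean_le_arith_mean2_weighted (w₁ := 1 / (ρ + 1)) (w₂ := ρ / (ρ + 1))
    (p₁ := S - D) (p₂ := S + D) (by positivity) (by positivity) h0 h1 (by field_simp; ring)
  have h2 : 1 / (ρ + 1) * (S - D) + ρ / (ρ + 1) * (S + D) = S + (ρ - 1) / (ρ + 1) * D := by
    field_simp
    ring
  rw [h2] at key
  have h3 : (S - D) ^ (1 / (ρ + 1)) * (S + D) ^ (ρ / (ρ + 1)) ≤ 1 := key.trans h
  have h4 : ((S - D) ^ (1 / (ρ + 1)) * (S + D) ^ (ρ / (ρ + 1))) ^ (ρ + 1) ≤ 1 :=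
    Real.rpow_le_one (by positivity) h3 hρ1.le
  rw [Real.mul_rpow (by positivity) (by positivity), ← Real.rpow_mul h0, ← Real.rpow_mul h1] at h4
  have e1 : 1 / (ρ + 1) * (ρ + 1) = 1 := by field_simp
  have e2 : ρ / (ρ + 1) * (ρ + 1) = ρ := by field_simp
  rwa [e1, e2, Real.rpow_one] at h4

/-- criterion on the convex side -/
theorem hasAngle_of_convex {ρ : ℝ} (hρ : 1 < ρ)
    (h : ∀ x y : X, ‖x‖ = 1 → ‖y‖ = 1 →
      ‖x + y‖ ^ 2 / 4 + (ρ - 1) / (ρ + 1) * (‖x - y‖ ^ 2 / 4) ≤ 1) : HasAngle ρ X := by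
  rw [hasAngle_iff]
  intro x y hx hy
  have h1 := h x y hx hy
  have h2 := h x (-y) hx (by rw [norm_neg]; exact hy)
  rw [← sub_eq_add_neg, sub_neg_eq_add] at h2
  have h4 : 0 ≤ ‖x + y‖ ^ 2 / 4 := by positivity
  have h5 : 0 ≤ ‖x - y‖ ^ 2 / 4 := by positivity
  rcases le_total (‖x - y‖ ^ 2 / 4) (‖x + y‖ ^ 2 / 4) with hc | hc
  · have := mean_ineq hρ h5 hc h1
    rw [abs_of_nonneg (by linarith)]
    calc _ = (‖x + y‖ ^ 2 / 4 - ‖x - y‖ ^ 2 / 4) * (‖x + y‖ ^ 2 / 4 + ‖x - y‖ ^ 2 / 4) ^ ρ := by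
          congr 1
          · ring
          · congr 1; ring
      _ ≤ 1 := this
  · have := mean_ineq hρ h4 hc h2
    rw [abs_of_nonpos (by linarith)]
    calc _ = (‖x - y‖ ^ 2 / 4 - ‖x + y‖ ^ 2 / 4) * (‖x - y‖ ^ 2 / 4 + ‖x + y‖ ^ 2 / 4) ^ ρ := by
          congr 1
          · ring
          · congr 1; ring
      _ ≤ 1 := this

theorem bern_ineq {S D γ : ℝ} (hγ : 1 < γ) (hp : 0 < S + D)
    (h : 1 ≤ S + (γ + 1) / (γ - 1) * D) : (S - D) * (S + D) ^ (-γ) ≤ 1 := by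
  have h1 : 1 + γ * (S + D - 1) ≤ (1 + (S + D - 1)) ^ γ :=
    one_add_mul_self_le_rpow_one_add (by linarith) hγ.le
  have e : 1 + (S + D - 1) = S + D := by ring
  rw [e] at h1
  have hg : 0 < γ - 1 := by linarith
  have h2 : γ - 1 ≤ (γ - 1) * S + (γ + 1) * D := by
    have := mul_le_mul_of_nonneg_left h hg.le
    have e2 : (γ - 1) * (S + (γ + 1) / (γ - 1) * D) = (γ - 1) * S + (γ + 1) * D := by
      field_simp
    rw [e2] at this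
    linarith
  have h3 : S - D ≤ (S + D) ^ γ := by nlinarith
  rw [Real.rpow_neg hp.le, mul_inv_le_iff₀ (Real.rpow_pos_of_pos hp _), one_mul]
  exact h3

/-- criterion on the smooth side -/
theorem hasAngle_of_smooth {γ : ℝ} (hγ : 1 < γ)
    (h : ∀ x y : X, ‖x‖ = 1 → ‖y‖ = 1 →
      1 ≤ ‖x + y‖ ^ 2 / 4 + (γ + 1) / (γ - 1) * (‖x - y‖ ^ 2 / 4)) : HasAngle (-γ) X := by
  rw [hasAngle_iff]
  intro x y hx hy
  have h1 := h x y hx hy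
  have h2 := h x (-y) hx (by rw [norm_neg]; exact hy)
  rw [← sub_eq_add_neg, sub_neg_eq_add] at h2
  have hp := pos_of_unit hx hy
  rcases le_total (‖x - y‖ ^ 2 / 4) (‖x + y‖ ^ 2 / 4) with hc | hc
  · have := bern_ineq hγ (by linarith) h1
    rw [abs_of_nonneg (by linarith)]
    calc _ = (‖x + y‖ ^ 2 / 4 - ‖x - y‖ ^ 2 / 4) *
          (‖x + y‖ ^ 2 / 4 + ‖x - y‖ ^ 2 / 4) ^ (-γ) := by
          congr 1
          · ring
          · congr 1; ring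
      _ ≤ 1 := this
  · have := bern_ineq hγ (by linarith) h2
    rw [abs_of_nonpos (by linarith)]
    calc _ = (‖x - y‖ ^ 2 / 4 - ‖x + y‖ ^ 2 / 4) *
          (‖x - y‖ ^ 2 / 4 + ‖x + y‖ ^ 2 / 4) ^ (-γ) := by
          congr 1
          · ring
          · congr 1; ring
      _ ≤ 1 := this

/-- the condition for two vectors of the same norm -/
theorem HasAngle.scaled {ρ : ℝ} (h : HasAngle ρ X) {x y : X} {r : ℝ} (hr : 0 < r) (hx : ‖x‖ = r)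
    (hy : ‖y‖ = r) :
    |(‖x + y‖ ^ 2 - ‖x - y‖ ^ 2) / (4 * r ^ 2)| *
      ((‖x + y‖ ^ 2 + ‖x - y‖ ^ 2) / (4 * r ^ 2)) ^ ρ ≤ 1 := by
  rw [hasAngle_iff] at h
  have h1 : ‖r⁻¹ • x‖ = 1 := by
    rw [norm_smul, norm_inv, Real.norm_of_nonneg hr.le, hx, inv_mul_cancel₀ hr.ne']
  have h2 : ‖r⁻¹ • y‖ = 1 := by
    rw [norm_smul, norm_inv, Real.norm_of_nonneg hr.le, hy, inv_mul_cancel₀ hr.ne']
  have h3 := h _ _ h1 h2
  have e1 : ‖r⁻¹ • x + r⁻¹ • y‖ = r⁻¹ * ‖x + y‖ := by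
    rw [← smul_add, norm_smul, norm_inv, Real.norm_of_nonneg hr.le]
  have e2 : ‖r⁻¹ • x - r⁻¹ • y‖ = r⁻¹ * ‖x - y‖ := by
    rw [← smul_sub, norm_smul, norm_inv, Real.norm_of_nonneg hr.le]
  rw [e1, e2] at h3
  have e3 : ((r⁻¹ * ‖x + y‖) ^ 2 - (r⁻¹ * ‖x - y‖) ^ 2) / 4 =
      (‖x + y‖ ^ 2 - ‖x - y‖ ^ 2) / (4 * r ^ 2) := by
    field_simp
  have e4 : ((r⁻¹ * ‖x + y‖) ^ 2 + (r⁻¹ * ‖x - y‖) ^ 2) / 4 =
      (‖x + y‖ ^ 2 + ‖x - y‖ ^ 2) / (4 * r ^ 2) := by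
    field_simp
  rwa [e3, e4] at h3

end Pool.Agent.X238.Ang
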