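import Pool.Agent.X238.Ang.Defs

set_option autoImplicit false

/-!
# The spaces that separate the classes
-/

namespace Pool.Agent.X238.Ang

/-- The plane with the norm `max (√(c² a² + b²)) (√(a² + c² b²))`, as a subspace of a sum of two
Euclidean planes. -/
def Y (c : ℝ) : Submodule ℝ (ℂ × ℂ) where
  carrier := {p | p.1.re = c * p.2.re ∧ p.2.im = c * p.1.im}
  add_mem' := by
    rintro p q ⟨h1, h2⟩ ⟨h3, h4⟩
    constructor
    · simp only [Prod.fst_add, Prod.snd_add, Complex.add_re, h1, h3]; ring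
    · simp only [Prod.fst_add, Prod.snd_add, Complex.add_im, h2, h4]; ring
  zero_mem' := by simp
  smul_mem' := by
    rintro r p ⟨h1, h2⟩
    constructor
    · simp only [Prod.smul_fst, Prod.smul_snd, Complex.real_smul, Complex.mul_re, Complex.ofReal_re,
        Complex.ofReal_im, zero_mul, sub_zero, h1]; ring
    · simp only [Prod.smul_fst, Prod.smul_snd, Complex.real_smul, Complex.mul_im, Complex.ofReal_re,
        Complex.ofReal_im, zero_mul, add_zero, h2]; ring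

/-- the vector with the coordinates `a`, `b` -/
def mk (c a b : ℝ) : Y c := ⟨(⟨c * a, b⟩, ⟨a, c * b⟩), by constructor <;> rfl⟩

theorem exists_mk {c : ℝ} (y : Y c) : ∃ a b, y = mk c a b := by
  obtain ⟨⟨⟨z1, z2⟩, ⟨w1, w2⟩⟩, h1, h2⟩ := y
  simp only at h1 h2
  subst h1 h2
  exact ⟨w1, z2, rfl⟩

theorem mk_add (c a b a' b' : ℝ) : mk c a b + mk c a' b' = mk c (a + a') (b + b') := by
  apply Subtype.ext
  simp only [mk, Submodule.coe_add, Prod.mk_add_mk, Prod.mk.injEq]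
  constructor <;> apply Complex.ext <;> simp <;> ring

theorem mk_sub (c a b a' b' : ℝ) : mk c a b - mk c a' b' = mk c (a - a') (b - b') := by
  apply Subtype.ext
  simp only [mk, AddSubgroupClass.coe_sub, Prod.mk_sub_mk, Prod.mk.injEq]
  constructor <;> apply Complex.ext <;> simp <;> ring

theorem max_sq {a b : ℝ} (ha : 0 ≤ a) (hb : 0 ≤ b) : (max a b) ^ 2 = max (a ^ 2) (b ^ 2) := by
  rcases le_total a b with h | h
  · rw [max_eq_right h, max_eq_right (by gcongr)]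
  · rw [max_eq_left h, max_eq_left (by gcongr)]

theorem norm_mk (c a b : ℝ) :
    ‖mk c a b‖ ^ 2 = max (c ^ 2 * a ^ 2 + b ^ 2) (a ^ 2 + c ^ 2 * b ^ 2) := by
  rw [Submodule.coe_norm]
  simp only [mk, Prod.norm_def]
  rw [max_sq (norm_nonneg _) (norm_nonneg _), Complex.sq_norm, Complex.sq_norm,
    Complex.normSq_apply, Complex.normSq_apply]
  congr 1 <;> ring

variable {c : ℝ}

/-- convexity -/
theorem convex_Y (hc0 : 0 ≤ c) (hc1 : c ≤ 1) (f g : Y c) :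
    ‖f + g‖ ^ 2 + c ^ 2 * ‖f - g‖ ^ 2 ≤ 2 * (‖f‖ ^ 2 + ‖g‖ ^ 2) := by
  obtain ⟨a, b, rfl⟩ := exists_mk f
  obtain ⟨a', b', rfl⟩ := exists_mk g
  rw [mk_add, mk_sub]
  simp only [norm_mk]
  have hc2 : c ^ 2 ≤ 1 := by nlinarith
  have hc3 : 0 ≤ c ^ 2 := by positivity
  have h1 : c ^ 2 * max (c ^ 2 * (a - a') ^ 2 + (b - b') ^ 2) ((a - a') ^ 2 + c ^ 2 * (b - b') ^ 2) ≤
      c ^ 2 * (a - a') ^ 2 + (b - b') ^ 2 := by
    rw [mul_max_of_nonneg _ _ hc3]
    refine max_le ?_ ?_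
    · nlinarith [sq_nonneg (a - a'), sq_nonneg (b - b'), mul_nonneg hc3 (sq_nonneg (a - a'))]
    · have : c ^ 2 * (c ^ 2 * (b - b') ^ 2) ≤ (b - b') ^ 2 := by
        have h : c ^ 2 * c ^ 2 ≤ 1 := by nlinarith
        nlinarith [sq_nonneg (b - b')]
      nlinarith
  have h2 : c ^ 2 * max (c ^ 2 * (a - a') ^ 2 + (b - b') ^ 2) ((a - a') ^ 2 + c ^ 2 * (b - b') ^ 2) ≤
      (a - a') ^ 2 + c ^ 2 * (b - b') ^ 2 := by
    rw [mul_max_of_nonneg _ _ hc3]
    refine max_le ?_ ?_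
    · have : c ^ 2 * (c ^ 2 * (a - a') ^ 2) ≤ (a - a') ^ 2 := by
        have h : c ^ 2 * c ^ 2 ≤ 1 := by nlinarith
        nlinarith [sq_nonneg (a - a')]
      nlinarith
    · nlinarith [sq_nonneg (a - a'), sq_nonneg (b - b'), mul_nonneg hc3 (sq_nonneg (b - b'))]
  have h3 := le_max_left (c ^ 2 * a ^ 2 + b ^ 2) (a ^ 2 + c ^ 2 * b ^ 2)
  have h4 := le_max_right (c ^ 2 * a ^ 2 + b ^ 2) (a ^ 2 + c ^ 2 * b ^ 2)
  have h5 := le_max_left (c ^ 2 * a' ^ 2 + b' ^ 2) (a' ^ 2 + c ^ 2 * b' ^ 2)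
  have h6 := le_max_right (c ^ 2 * a' ^ 2 + b' ^ 2) (a' ^ 2 + c ^ 2 * b' ^ 2)
  rcases le_total (c ^ 2 * (a + a') ^ 2 + (b + b') ^ 2) ((a + a') ^ 2 + c ^ 2 * (b + b') ^ 2) with
    h | h
  · rw [max_eq_right h]
    nlinarith
  · rw [max_eq_left h]
    nlinarith

/-- `Y c` has the angle `∠_ρ` for `(ρ - 1) / (ρ + 1) = c²` -/
theorem hasAngle_Y {ρ : ℝ} (hρ : 1 < ρ) (hc0 : 0 ≤ c) (hc : c ^ 2 = (ρ - 1) / (ρ + 1)) :
    HasAngle ρ (Y c) := by
  have hc1 : c ≤ 1 := by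
    have : (ρ - 1) / (ρ + 1) ≤ 1 := by
      rw [div_le_one (by linarith)]
      linarith
    nlinarith
  refine hasAngle_of_convex hρ fun x y hx hy => ?_
  have := convex_Y hc0 hc1 x y
  rw [hx, hy] at this
  rw [← hc]
  linarith

/-- a number with a small multiple of its square is positive -/
theorem exists_small {p q : ℝ} (hp : 0 < p) (hq : 0 < q) (m : ℝ) (hm : 0 < m) :
    ∃ D : ℝ, 0 < D ∧ D ≤ m ∧ q * D < p := by
  refine ⟨min m (p / (2 * q)), lt_min hm (by positivity), min_le_left _ _, ?_⟩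
  calc q * min m (p / (2 * q)) ≤ q * (p / (2 * q)) := by
        gcongr
        exact min_le_right _ _
    _ = p / 2 := by field_simp
    _ < p := by linarith

/-- `Y c` does not have the angle `∠_β` for `c² < (β - 1) / (β + 1)` -/
theorem not_hasAngle_Y {β : ℝ} (hβ : 1 < β) (hc0 : 0 ≤ c) (hc : c ^ 2 < (β - 1) / (β + 1)) :
    ¬ HasAngle β (Y c) := by
  intro h
  have hc1 : c ^ 2 < 1 := by
    refine hc.trans ?_
    rw [div_lt_one (by linarith)]
    linarith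
  have hc3 : 0 ≤ c ^ 2 := by positivity
  have hk : (1 + c ^ 2) < β * (1 - c ^ 2) := by
    rw [lt_div_iff₀ (by linarith)] at hc
    linarith
  obtain ⟨E, hE0, hE1, hE⟩ := exists_small (p := β * (1 - c ^ 2) - (1 + c ^ 2))
    (q := (1 + c ^ 2) * (β * (1 - c ^ 2))) (by linarith) (by nlinarith) (1 / 2) (by norm_num)
  -- D = a² / (1 + c² a²)
  set A : ℝ := E / (1 - c ^ 2 * E) with hA
  have hcE : c ^ 2 * E < 1 := by nlinarith
  have hA0 : 0 < A := div_pos hE0 (by linarith)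
  have hA1 : A ≤ 1 := by
    rw [hA, div_le_one (by linarith)]
    nlinarith
  set a : ℝ := Real.sqrt A with ha
  have ha2 : a ^ 2 = A := Real.sq_sqrt hA0.le
  have hn : ∀ s : ℝ, s ^ 2 = A → ‖mk c s 1‖ ^ 2 = 1 + c ^ 2 * A := by
    intro s hs
    rw [norm_mk, hs]
    rw [max_eq_left (by nlinarith)]
    ring
  have hx := hn a ha2
  have hy := hn (-a) (by rw [neg_sq]; exact ha2)
  set r : ℝ := Real.sqrt (1 + c ^ 2 * A) with hr
  have hr0 : 0 < r := Real.sqrt_pos.2 (by positivity)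
  have hr2 : r ^ 2 = 1 + c ^ 2 * A := Real.sq_sqrt (by positivity)
  have hx' : ‖mk c a 1‖ = r := by
    rw [hr, ← hx, Real.sqrt_sq (norm_nonneg _)]
  have hy' : ‖mk c (-a) 1‖ = r := by
    rw [hr, ← hy, Real.sqrt_sq (norm_nonneg _)]
  have key := h.scaled hr0 hx' hy'
  rw [mk_add, mk_sub, norm_mk, norm_mk] at key
  have e1 : max (c ^ 2 * (a + -a) ^ 2 + (1 + 1) ^ 2) ((a + -a) ^ 2 + c ^ 2 * (1 + 1) ^ 2) = 4 := by
    rw [max_eq_left (by nlinarith)]
    ring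
  have e2 : max (c ^ 2 * (a - -a) ^ 2 + (1 - 1) ^ 2) ((a - -a) ^ 2 + c ^ 2 * (1 - 1) ^ 2) =
      4 * A := by
    rw [max_eq_right (by nlinarith [sq_nonneg (a - -a)])]
    have : (a - -a) ^ 2 = 4 * A := by rw [← ha2]; ring
    rw [this]
    ring
  rw [e1, e2, hr2] at key
  have hcE' : 1 - c ^ 2 * E ≠ 0 := by linarith
  have hEA : E * (1 + c ^ 2 * A) = A := by
    have : A * (1 - c ^ 2 * E) = E := by rw [hA]; exact div_mul_cancel₀ _ hcE'
    linear_combination (-1 : ℝ) * this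
  have hden : 4 * (1 + c ^ 2 * A) ≠ 0 := by positivity
  have e3 : (4 - 4 * A) / (4 * (1 + c ^ 2 * A)) = 1 - (1 + c ^ 2) * E := by
    rw [div_eq_iff hden]
    linear_combination (4 * (1 + c ^ 2)) * hEA
  have e4 : (4 + 4 * A) / (4 * (1 + c ^ 2 * A)) = 1 + (1 - c ^ 2) * E := by
    rw [div_eq_iff hden]
    linear_combination (-4 * (1 - c ^ 2)) * hEA
  rw [e3, e4] at key
  have hpos : 0 ≤ 1 - (1 + c ^ 2) * E := by nlinarith
  rw [abs_of_nonneg hpos] at key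
  have hb : 1 + β * ((1 - c ^ 2) * E) ≤ (1 + (1 - c ^ 2) * E) ^ β :=
    one_add_mul_self_le_rpow_one_add (by nlinarith) hβ.le
  have h1 : (1 - (1 + c ^ 2) * E) * (1 + β * ((1 - c ^ 2) * E)) ≤ 1 :=
    (mul_le_mul_of_nonneg_left hb hpos).trans key
  nlinarith

/-- `Y c` has none of the angles `∠_{-γ}`, `γ > 1` -/
theorem not_hasAngle_neg_Y {γ : ℝ} (hγ : 1 < γ) (hc0 : 0 ≤ c) (hc1 : c < 1) :
    ¬ HasAngle (-γ) (Y c) := by
  intro h
  have hc3 : 0 ≤ c ^ 2 := by positivity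
  have hc2 : c ^ 2 < 1 := by nlinarith
  obtain ⟨η, hη0, hη1, hη⟩ := exists_small (p := (γ - 1) * (2 * (1 - c ^ 2)))
    (q := 24 + 12 * γ) (by apply mul_pos <;> linarith) (by linarith) (1 / 2) (by norm_num)
  have hn1 : ‖mk c (1 - η) (1 + η)‖ ^ 2 = (1 + c ^ 2) * (1 + η ^ 2) + 2 * η * (1 - c ^ 2) := by
    rw [norm_mk, max_eq_left (by nlinarith)]
    ring
  have hn2 : ‖mk c (1 + η) (1 - η)‖ ^ 2 = (1 + c ^ 2) * (1 + η ^ 2) + 2 * η * (1 - c ^ 2) := by
    rw [norm_mk, max_eq_right (by nlinarith)]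
    ring
  set R : ℝ := (1 + c ^ 2) * (1 + η ^ 2) + 2 * η * (1 - c ^ 2) with hR
  have hR1 : 1 ≤ R := by
    rw [hR]
    nlinarith [sq_nonneg η, mul_pos hη0 (sub_pos.2 hc2), mul_nonneg hc3 (sq_nonneg η)]
  have hR6 : R ≤ 6 := by
    rw [hR]
    nlinarith [sq_nonneg η, mul_pos hη0 (sub_pos.2 hc2), mul_nonneg hc3 (sq_nonneg η)]
  set r : ℝ := Real.sqrt R with hr
  have hr0 : 0 < r := Real.sqrt_pos.2 (by linarith)
  have hr2 : r ^ 2 = R := Real.sq_sqrt (by linarith)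
  have hx' : ‖mk c (1 - η) (1 + η)‖ = r := by
    rw [hr, ← hn1, Real.sqrt_sq (norm_nonneg _)]
  have hy' : ‖mk c (1 + η) (1 - η)‖ = r := by
    rw [hr, ← hn2, Real.sqrt_sq (norm_nonneg _)]
  have key := h.scaled hr0 hx' hy'
  rw [mk_add, mk_sub, norm_mk, norm_mk, hr2] at key
  have e1 : max (c ^ 2 * (1 - η + (1 + η)) ^ 2 + (1 + η + (1 - η)) ^ 2)
      ((1 - η + (1 + η)) ^ 2 + c ^ 2 * (1 + η + (1 - η)) ^ 2) = 4 * (1 + c ^ 2) := by
    rw [max_eq_left (by nlinarith)]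
    ring
  have e2 : max (c ^ 2 * (1 - η - (1 + η)) ^ 2 + (1 + η - (1 - η)) ^ 2)
      ((1 - η - (1 + η)) ^ 2 + c ^ 2 * (1 + η - (1 - η)) ^ 2) = 4 * ((1 + c ^ 2) * η ^ 2) := by
    rw [max_eq_left (by nlinarith)]
    ring
  rw [e1, e2] at key
  -- z = 2 η (1 - c²) / R, V = (1 + c²) η² / R
  set z : ℝ := 2 * η * (1 - c ^ 2) / R with hz
  set V : ℝ := (1 + c ^ 2) * η ^ 2 / R with hV
  have hR0 : 0 < R := by linarith
  have hz0 : 0 < z := div_pos (by nlinarith [mul_pos hη0 (sub_pos.2 hc2)]) hR0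
  have hz1 : z < 1 := by
    rw [hz, div_lt_one hR0, hR]
    nlinarith [sq_nonneg η, mul_nonneg hc3 (sq_nonneg η)]
  have hV0 : 0 ≤ V := by positivity
  have e3 : (4 * (1 + c ^ 2) - 4 * ((1 + c ^ 2) * η ^ 2)) / (4 * R) = 1 - z - 2 * V := by
    rw [hz, hV]
    field_simp
    rw [hR]
    ring
  have e4 : (4 * (1 + c ^ 2) + 4 * ((1 + c ^ 2) * η ^ 2)) / (4 * R) = 1 - z := by
    rw [hz]
    field_simp
    rw [hR]
    ring
  rw [e3, e4] at key
  have hzz : 0 < 1 - z := by linarith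
  have hb : 1 + γ * z ≤ (1 + z) ^ γ := one_add_mul_self_le_rpow_one_add (by linarith) hγ.le
  have hb2 : (1 + z) ^ γ ≤ (1 - z) ^ (-γ) := by
    rw [Real.rpow_neg hzz.le, ← one_div, le_div_iff₀ (Real.rpow_pos_of_pos hzz _),
      ← Real.mul_rpow (by linarith) hzz.le]
    exact Real.rpow_le_one (by nlinarith) (by nlinarith) (by linarith)
  have h1 : (1 - z - 2 * V) * (1 + γ * z) ≤ 1 := by
    calc (1 - z - 2 * V) * (1 + γ * z) ≤ |1 - z - 2 * V| * (1 + γ * z) := by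
          gcongr
          exact le_abs_self _
      _ ≤ |1 - z - 2 * V| * (1 - z) ^ (-γ) := by
          gcongr
          exact hb.trans hb2
      _ ≤ 1 := key
  -- contradiction for small η
  have hzR : z * R = 2 * η * (1 - c ^ 2) := by rw [hz]; field_simp
  have hVR : V * R = (1 + c ^ 2) * η ^ 2 := by rw [hV]; field_simp
  have h2 : (γ - 1) * z ≤ γ * z ^ 2 + 2 * V * (1 + γ * z) := by
    have e5 : (1 - z - 2 * V) * (1 + γ * z) =
        1 + (γ - 1) * z - γ * z ^ 2 - 2 * V * (1 + γ * z) := by ring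
    linarith
  have h3 : (γ - 1) * (z * R) ≤ γ * z * (z * R) + 2 * (V * R) * (1 + γ * z) := by
    have e6 := mul_le_mul_of_nonneg_right h2 hR0.le
    have e7 : (γ - 1) * z * R = (γ - 1) * (z * R) := by ring
    have e8 : (γ * z ^ 2 + 2 * V * (1 + γ * z)) * R =
        γ * z * (z * R) + 2 * (V * R) * (1 + γ * z) := by ring
    rw [e7, e8] at e6
    exact e6
  rw [hzR, hVR] at h3
  have hz3 : z ≤ 2 * η := by
    rw [hz, div_le_iff₀ hR0]
    nlinarith [mul_nonneg hη0.le hc3]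
  have hz4 : γ * z * (2 * η * (1 - c ^ 2)) ≤ γ * (2 * η) * (2 * η) := by
    have : 2 * η * (1 - c ^ 2) ≤ 2 * η := by nlinarith
    gcongr
  have hz5 : 2 * ((1 + c ^ 2) * η ^ 2) * (1 + γ * z) ≤ 2 * (2 * η ^ 2) * (1 + γ * 1) := by
    have : 1 + c ^ 2 ≤ 2 := by linarith
    gcongr
  have h4 : (γ - 1) * (2 * η * (1 - c ^ 2)) ≤ η * ((24 + 12 * γ) * η) := by
    have h6 : 0 ≤ η ^ 2 * (20 + 4 * γ) := by positivity
    linarith
  have h5 : (γ - 1) * (2 * (1 - c ^ 2)) ≤ (24 + 12 * γ) * η := by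
    have : η * ((γ - 1) * (2 * (1 - c ^ 2))) ≤ η * ((24 + 12 * γ) * η) := by linarith
    exact le_of_mul_le_mul_left this hη0
  linarith

/-! ### the dual space -/

/-- the dual space of `Y c` -/
abbrev Yd (c : ℝ) : Type := Y c →L[ℝ] ℝ

/-- the functional `(a', b') ↦ a a' + b b'` -/
noncomputable def fn (c a b : ℝ) : Yd c :=
  a • (Complex.reCLM ∘L (ContinuousLinearMap.snd ℝ ℂ ℂ) ∘L (Y c).subtypeL) +
    b • (Complex.imCLM ∘L (ContinuousLinearMap.fst ℝ ℂ ℂ) ∘L (Y c).subtypeL)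

theorem fn_mk (c a b a' b' : ℝ) : fn c a b (mk c a' b') = a * a' + b * b' := by
  simp [fn, mk]

theorem fn_add (c a b a' b' : ℝ) : fn c a b + fn c a' b' = fn c (a + a') (b + b') := by
  ext y
  obtain ⟨u, v, rfl⟩ := exists_mk y
  rw [_root_.add_apply, fn_mk, fn_mk, fn_mk]
  ring

theorem fn_sub (c a b a' b' : ℝ) : fn c a b - fn c a' b' = fn c (a - a') (b - b') := by
  ext y
  obtain ⟨u, v, rfl⟩ := exists_mk y
  rw [_root_.sub_apply, fn_mk, fn_mk, fn_mk]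
  ring

/-- upper bound for the norm of a functional -/
theorem norm_fn_le {a b r : ℝ} (hr : 0 ≤ r)
    (h : ∀ u v, (a * u + b * v) ^ 2 ≤ r ^ 2 * max (c ^ 2 * u ^ 2 + v ^ 2) (u ^ 2 + c ^ 2 * v ^ 2)) :
    ‖fn c a b‖ ≤ r := by
  refine ContinuousLinearMap.opNorm_le_bound _ hr fun y => ?_
  obtain ⟨u, v, rfl⟩ := exists_mk y
  rw [fn_mk, Real.norm_eq_abs]
  refine abs_le_of_sq_le_sq ?_ (by positivity)
  rw [mul_pow, norm_mk]
  exact h u v

/-- lower bound for the norm of a functional -/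
theorem le_norm_fn {a b u v r : ℝ} (hr : 0 ≤ r)
    (h0 : 0 < max (c ^ 2 * u ^ 2 + v ^ 2) (u ^ 2 + c ^ 2 * v ^ 2))
    (h : r ^ 2 * max (c ^ 2 * u ^ 2 + v ^ 2) (u ^ 2 + c ^ 2 * v ^ 2) ≤ (a * u + b * v) ^ 2) :
    r ≤ ‖fn c a b‖ := by
  have h1 := (fn c a b).le_opNorm (mk c u v)
  rw [fn_mk, Real.norm_eq_abs] at h1
  rw [← norm_mk] at h h0
  have h2 : (r * ‖mk c u v‖) ^ 2 ≤ (‖fn c a b‖ * ‖mk c u v‖) ^ 2 := by
    calc (r * ‖mk c u v‖) ^ 2 = r ^ 2 * ‖mk c u v‖ ^ 2 := by ring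
      _ ≤ (a * u + b * v) ^ 2 := h
      _ = |a * u + b * v| ^ 2 := (sq_abs _).symm
      _ ≤ _ := by gcongr
  have h3 : 0 < ‖mk c u v‖ := by
    by_contra hc
    have : ‖mk c u v‖ = 0 := le_antisymm (not_lt.1 hc) (norm_nonneg _)
    rw [this] at h0
    norm_num at h0
  have h4 := abs_le_of_sq_le_sq' h2 (by positivity)
  exact le_of_mul_le_mul_right h4.2 h3

/-- smoothness of the dual space -/
theorem hasAngle_Yd {γ : ℝ} (hγ : 1 < γ) (hc0 : 0 < c) (hc : c ^ 2 = (γ - 1) / (γ + 1)) :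
    HasAngle (-γ) (Yd c) := by
  have hc1 : c ≤ 1 := by
    have : (γ - 1) / (γ + 1) ≤ 1 := by
      rw [div_le_one (by linarith)]
      linarith
    nlinarith
  have hc2 : 0 < c ^ 2 := by positivity
  refine hasAngle_of_smooth hγ fun x y hx hy => ?_
  have hC : (γ + 1) / (γ - 1) = 1 / c ^ 2 := by
    rw [hc]
    have : γ - 1 ≠ 0 := by linarith
    have : γ + 1 ≠ 0 := by linarith
    field_simp
  rw [hC]
  -- it suffices to prove it up to a factor close to one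
  refine le_of_forall_lt_imp_le_of_dense fun r hr => ?_
  rcases le_or_gt r 0 with hr0 | hr0
  · refine hr0.trans ?_
    positivity
  obtain ⟨q, hq0, hq1, hq2⟩ : ∃ q : ℝ, 0 < q ∧ q < 1 ∧ r ≤ q ^ 2 :=
    ⟨Real.sqrt r, Real.sqrt_pos.2 hr0, by rwa [Real.sqrt_lt' (by norm_num), one_pow],
      (Real.sq_sqrt hr0.le).ge⟩
  have ex : ∀ x : Yd c, ‖x‖ = 1 → ∃ f : Y c, ‖f‖ ≤ 1 ∧ q ≤ x f := by
    intro x hx
    obtain ⟨f, hf1, hf2⟩ := x.exists_lt_apply_of_lt_opNorm (r := q) (by rw [hx]; exact hq1)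
    rcases le_total 0 (x f) with h | h
    · exact ⟨f, hf1.le, by rw [Real.norm_of_nonneg h] at hf2; exact hf2.le⟩
    · exact ⟨-f, by rw [norm_neg]; exact hf1.le, by
        rw [Real.norm_of_nonpos h] at hf2
        rw [map_neg]
        exact hf2.le⟩
  obtain ⟨f, hf1, hf2⟩ := ex x hx
  obtain ⟨g, hg1, hg2⟩ := ex y hy
  have h1 : (x + y) (f + g) + (x - y) (f - g) = 2 * (x f + y g) := by
    simp only [_root_.add_apply, _root_.sub_apply, map_add, map_sub]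
    ring
  have h2 : 4 * q ≤ ‖x + y‖ * ‖f + g‖ + ‖x - y‖ * ‖f - g‖ := by
    have h3 := (le_abs_self _).trans ((x + y).le_opNorm (f + g))
    have h4 := (le_abs_self _).trans ((x - y).le_opNorm (f - g))
    linarith
  have h5 := convex_Y hc0.le hc1 f g
  have h6 : ‖f‖ ^ 2 ≤ 1 := by nlinarith [norm_nonneg f]
  have h7 : ‖g‖ ^ 2 ≤ 1 := by nlinarith [norm_nonneg g]
  -- Cauchy-Schwarz
  set P := ‖x + y‖
  set Q := ‖x - y‖
  set F := ‖f + g‖
  set H := ‖f - g‖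
  have hP : 0 ≤ P := norm_nonneg (x + y)
  have hQ : 0 ≤ Q := norm_nonneg (x - y)
  have hF : 0 ≤ F := norm_nonneg (f + g)
  have hH : 0 ≤ H := norm_nonneg (f - g)
  have h8 : (P * F + Q * H) ^ 2 ≤ (P ^ 2 + 1 / c ^ 2 * Q ^ 2) * (F ^ 2 + c ^ 2 * H ^ 2) := by
    have e : (P ^ 2 + 1 / c ^ 2 * Q ^ 2) * (F ^ 2 + c ^ 2 * H ^ 2) - (P * F + Q * H) ^ 2 =
        (P * (c * H) - Q / c * F) ^ 2 := by
      field_simp
      ring
    nlinarith [sq_nonneg (P * (c * H) - Q / c * F)]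
  have h9 : (4 * q) ^ 2 ≤ (P * F + Q * H) ^ 2 := by gcongr
  have h10 : (P ^ 2 + 1 / c ^ 2 * Q ^ 2) * (F ^ 2 + c ^ 2 * H ^ 2) ≤
      (P ^ 2 + 1 / c ^ 2 * Q ^ 2) * 4 := by
    have : F ^ 2 + c ^ 2 * H ^ 2 ≤ 4 := by linarith
    gcongr
  have h11 : 1 / c ^ 2 * (Q ^ 2 / 4) = 1 / c ^ 2 * Q ^ 2 / 4 := by ring
  rw [h11]
  nlinarith

/-- `Yd c` does not have the angle `∠_{-δ}` for `c² < (δ - 1) / (δ + 1)` -/
theorem not_hasAngle_Yd {δ : ℝ} (hδ : 1 < δ) (hc0 : 0 < c) (hc : c ^ 2 < (δ - 1) / (δ + 1)) :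
    ¬ HasAngle (-δ) (Yd c) := by
  intro h
  have hc2 : 0 < c ^ 2 := by positivity
  have hc1 : c ^ 2 < 1 := by
    refine hc.trans ?_
    rw [div_lt_one (by linarith)]
    linarith
  have hk : (1 + c ^ 2) < δ * (1 - c ^ 2) := by
    rw [lt_div_iff₀ (by linarith)] at hc
    linarith
  obtain ⟨E, hE0, hE1, hE⟩ := exists_small (p := δ * (1 - c ^ 2) - (1 + c ^ 2))
    (q := (1 + c ^ 2) * (δ * (1 - c ^ 2))) (by linarith)
    (mul_pos (by linarith) (mul_pos (by linarith) (by linarith))) (c ^ 2 / 4) (by positivity)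
  have hE4 : E < 1 := by linarith
  set A : ℝ := c ^ 2 * E / (1 - E) with hA
  have hA0 : 0 < A := div_pos (by positivity) (by linarith)
  have hAE : A * (1 - E) = c ^ 2 * E := by
    rw [hA]
    exact div_mul_cancel₀ _ (by linarith)
  have hA4 : A ≤ c ^ 2 * c ^ 2 := by
    rw [hA, div_le_iff₀ (by linarith)]
    nlinarith
  set R : ℝ := 1 / (1 - E) with hR
  have hR0 : 0 < R := by
    rw [hR]
    exact one_div_pos.2 (by linarith)
  have hRE : R * (1 - E) = 1 := by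
    rw [hR]
    exact div_mul_cancel₀ _ (by linarith)
  have hAR : A = c ^ 2 * E * R := by
    rw [hA, hR]
    ring
  set r : ℝ := Real.sqrt R with hr
  have hr0 : 0 < r := Real.sqrt_pos.2 hR0
  have hr2 : r ^ 2 = R := Real.sq_sqrt hR0.le
  set a : ℝ := Real.sqrt A with ha
  have ha0 : 0 < a := Real.sqrt_pos.2 hA0
  have ha2 : a ^ 2 = A := Real.sq_sqrt hA0.le
  have hn : ∀ s : ℝ, s ^ 2 = A → ‖fn c s 1‖ = r := by
    intro s hs
    refine le_antisymm (norm_fn_le hr0.le fun u v => ?_) ?_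
    · rw [hr2]
      refine le_trans ?_ (mul_le_mul_of_nonneg_left (le_max_left _ _) hR0.le)
      have e1 : R = 1 + E * R := by linarith
      -- (s u + v)² ≤ (1 + s² / c²) (c² u² + v²)
      have e2 : s ^ 2 = c ^ 2 * (E * R) := by rw [hs, hAR]; ring
      have e3 : (s * u + 1 * v) ^ 2 ≤ (1 + E * R) * (c ^ 2 * u ^ 2 + v ^ 2) := by
        have e4 : c ^ 2 * ((1 + E * R) * (c ^ 2 * u ^ 2 + v ^ 2) - (s * u + 1 * v) ^ 2) =
            (c ^ 2 * u - s * v) ^ 2 := by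
          have e5 : (c ^ 2 * u - s * v) ^ 2 =
            c ^ 2 * c ^ 2 * u ^ 2 - 2 * c ^ 2 * u * s * v + s ^ 2 * v ^ 2 := by ring
          have e6 : c ^ 2 * ((1 + E * R) * (c ^ 2 * u ^ 2 + v ^ 2) - (s * u + 1 * v) ^ 2) =
            c ^ 2 * c ^ 2 * u ^ 2 + c ^ 2 * (c ^ 2 * (E * R)) * u ^ 2 + c ^ 2 * (E * R) * v ^ 2
              - c ^ 2 * s ^ 2 * u ^ 2 - 2 * c ^ 2 * u * s * v := by ring
          rw [e5, e6, ← e2]
          ring
        have e7 : 0 ≤ c ^ 2 * ((1 + E * R) * (c ^ 2 * u ^ 2 + v ^ 2) - (s * u + 1 * v) ^ 2) := by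
          rw [e4]; positivity
        have e8 := nonneg_of_mul_nonneg_right e7 hc2
        linarith
      rw [← e1] at e3
      exact e3
    · have hmax : max (c ^ 2 * (s / c ^ 2) ^ 2 + 1 ^ 2) ((s / c ^ 2) ^ 2 + c ^ 2 * 1 ^ 2) = R := by
        have e1 : (s / c ^ 2) ^ 2 = E * R / c ^ 2 := by
          rw [div_pow, hs, hAR]
          field_simp
        rw [e1]
        have e2 : c ^ 2 * (E * R / c ^ 2) = E * R := by field_simp
        have e3 : E * R / c ^ 2 ≤ 1 := by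
          rw [div_le_one hc2]
          have : c ^ 2 * (E * R) ≤ c ^ 2 * c ^ 2 := by rw [← mul_assoc, ← hAR]; exact hA4
          exact le_of_mul_le_mul_left this hc2
        have e4 : E * R / c ^ 2 * c ^ 2 = E * R := by field_simp
        rw [e2, max_eq_left]
        · linarith
        · nlinarith
      refine le_norm_fn (u := s / c ^ 2) (v := 1) hr0.le (by rw [hmax]; exact hR0) ?_
      rw [hmax, hr2]
      have e1 : s * (s / c ^ 2) + 1 * 1 = R := by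
        have : s * (s / c ^ 2) = s ^ 2 / c ^ 2 := by ring
        rw [this, hs, hAR]
        have : c ^ 2 * E * R / c ^ 2 = E * R := by field_simp
        rw [this]
        linarith
      rw [e1]
      exact le_of_eq (by ring)
  have hx := hn a ha2
  have hy := hn (-a) (by rw [neg_sq]; exact ha2)
  have key := h.scaled hr0 hx hy
  rw [fn_add, fn_sub] at key
  have hu : ‖fn c (a + -a) (1 + 1)‖ = 2 := by
    refine le_antisymm (norm_fn_le (by norm_num) fun u v => ?_) ?_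
    · refine le_trans ?_ (mul_le_mul_of_nonneg_left (le_max_left _ _) (by norm_num))
      nlinarith [mul_nonneg hc2.le (sq_nonneg u)]
    · have hmax : max (c ^ 2 * (0 : ℝ) ^ 2 + 1 ^ 2) ((0 : ℝ) ^ 2 + c ^ 2 * 1 ^ 2) = 1 := by
        rw [max_eq_left (by nlinarith)]
        ring
      refine le_norm_fn (u := 0) (v := 1) (by norm_num) (by rw [hmax]; norm_num) ?_
      rw [hmax]
      norm_num
  have hv : ‖fn c (a - -a) (1 - 1)‖ = 2 * a := by
    refine le_antisymm (norm_fn_le (by positivity) fun u v => ?_) ?_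
    · refine le_trans ?_ (mul_le_mul_of_nonneg_left (le_max_right _ _) (by positivity))
      have : 0 ≤ (2 * a) ^ 2 * (c ^ 2 * v ^ 2) := by positivity
      nlinarith
    · have hmax : max (c ^ 2 * (1 : ℝ) ^ 2 + 0 ^ 2) ((1 : ℝ) ^ 2 + c ^ 2 * 0 ^ 2) = 1 := by
        rw [max_eq_right (by nlinarith)]
        ring
      refine le_norm_fn (u := 1) (v := 0) (by positivity) (by rw [hmax]; norm_num) ?_
      rw [hmax]
      exact le_of_eq (by ring)
  rw [hu, hv, hr2] at key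
  have e3 : (2 ^ 2 - (2 * a) ^ 2) / (4 * R) = 1 - (1 + c ^ 2) * E := by
    rw [div_eq_iff (by positivity), mul_pow, ha2, hAR]
    linear_combination (-4 : ℝ) * hRE
  have e4 : (2 ^ 2 + (2 * a) ^ 2) / (4 * R) = 1 - (1 - c ^ 2) * E := by
    rw [div_eq_iff (by positivity), mul_pow, ha2, hAR]
    linear_combination (-4 : ℝ) * hRE
  rw [e3, e4] at key
  set w : ℝ := (1 - c ^ 2) * E with hw
  have hw0 : 0 < w := mul_pos (by linarith) hE0
  have hw1 : w < 1 := by nlinarith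
  have hww : 0 < 1 - w := by linarith
  have hb : 1 + δ * w ≤ (1 + w) ^ δ := one_add_mul_self_le_rpow_one_add (by linarith) hδ.le
  have hb2 : (1 + w) ^ δ ≤ (1 - w) ^ (-δ) := by
    rw [Real.rpow_neg hww.le, ← one_div, le_div_iff₀ (Real.rpow_pos_of_pos hww _),
      ← Real.mul_rpow (by linarith) hww.le]
    exact Real.rpow_le_one (by nlinarith) (by nlinarith) (by linarith)
  have hpos : 0 ≤ 1 - (1 + c ^ 2) * E := by nlinarith
  rw [abs_of_nonneg hpos] at key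
  have h1 : (1 - (1 + c ^ 2) * E) * (1 + δ * w) ≤ 1 :=
    (mul_le_mul_of_nonneg_left (hb.trans hb2) hpos).trans key
  have h2 : (1 - (1 + c ^ 2) * E) * (1 + δ * w) =
      1 + E * ((δ * (1 - c ^ 2) - (1 + c ^ 2)) - (1 + c ^ 2) * (δ * (1 - c ^ 2)) * E) := by
    rw [hw]
    ring
  have h3 : 0 < E * ((δ * (1 - c ^ 2) - (1 + c ^ 2)) - (1 + c ^ 2) * (δ * (1 - c ^ 2)) * E) :=
    mul_pos hE0 (by linarith)
  linarith

end Pool.Agent.X238.Ang
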